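import Pool.Agent.Lib.MP_6b2627_an.Counting

/-!
# Upper bound for the packing numbers of rough graphs
-/

open Set Filter Topology Metric
open scoped ENNReal

namespace Pool.Agent.Lib.MP_6b2627_an

/-- the exponent `κ` with `q - 1 = q^κ` -/
noncomputable def kap (q : ℕ) : ℝ := Real.log ((q : ℝ) - 1) / Real.log q

lemma kap_nonneg {q : ℕ} (hq : 2 ≤ q) : 0 ≤ kap q := by
  have h2 : (2 : ℝ) ≤ q := by exact_mod_cast hq
  unfold kap
  apply div_nonneg (Real.log_nonneg (by linarith)) (Real.log_nonneg (by linarith))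

lemma kap_lt_one {q : ℕ} (hq : 2 ≤ q) : kap q < 1 := by
  have h2 : (2 : ℝ) ≤ q := by exact_mod_cast hq
  unfold kap
  rw [div_lt_one (Real.log_pos (by linarith))]
  exact Real.log_lt_log (by linarith) (by linarith)

lemma pow_kap {q : ℕ} (hq : 2 ≤ q) (m : ℕ) :
    ((q : ℝ) - 1) ^ m = ((q : ℝ) ^ m) ^ (kap q) := by
  have h2 : (2 : ℝ) ≤ q := by exact_mod_cast hq
  have hlog : 0 < Real.log q := Real.log_pos (by linarith)
  have h1 : (q : ℝ) - 1 = (q : ℝ) ^ (kap q) := by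
    rw [Real.rpow_def_of_pos (by linarith)]
    unfold kap
    rw [mul_div_cancel₀ _ hlog.ne', Real.exp_log (by linarith)]
  conv_lhs => rw [h1]
  rw [← Real.rpow_natCast, ← Real.rpow_natCast, ← Real.rpow_mul (by linarith),
    ← Real.rpow_mul (by linarith), mul_comm]

/-- the constant in the bound -/
noncomputable def cst (K c η : ℝ) (q : ℕ) : ℝ :=
  (2 * K + 2) * (1 + 2 * q) * (2 * q + 2) * ((4 / c) ^ (1 / η)) ^ (1 - kap q)

/-- the exponent in the bound -/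
noncomputable def expo (θ η : ℝ) (q : ℕ) : ℝ := θ * kap q + θ / η * (1 - kap q) + η - 2

lemma card_bound {g : ℝ → ℝ} {K c η θ r x₀ : ℝ} (hη : 0 < η) (hη1 : η < 1) (hK : 0 ≤ K)
    (hc : 0 < c) (hc4 : c ≤ 4)
    (hH : ∀ s ∈ Icc (0 : ℝ) 1, ∀ t ∈ Icc (0 : ℝ) 1, |g s - g t| ≤ K * |s - t| ^ η)
    (hL : ∀ u ρ : ℝ, 0 ≤ u → 0 < ρ → u + ρ ≤ 1 → ∃ s ∈ Icc u (u + ρ), ∃ t ∈ Icc u (u + ρ),
      c * ρ ^ η ≤ |g s - g t|)
    {q : ℕ} (hq : 2 ≤ q) (hqK : K * (1 / (q : ℝ)) ^ η ≤ c / 4)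
    (hθ : 0 < θ) (hθη : θ ≤ η) (hr : 0 < r) (hr1 : r < 1)
    {T : Finset ℝ} (hT : ∀ t ∈ T, t ∈ Icc (0 : ℝ) 1 ∧ |t - x₀| < r ^ θ ∧ |g t - g x₀| < r ^ θ)
    (hsep : ∀ s ∈ T, ∀ t ∈ T, ⌊s / r⌋ = ⌊t / r⌋ → ⌊g s / r⌋ = ⌊g t / r⌋ → s = t) :
    (T.card : ℝ) ≤ cst K c η q * r ^ (expo θ η q) := by
  have h2 : (2 : ℝ) ≤ q := by exact_mod_cast hq
  have hq0 : (0 : ℝ) < q := by linarith
  have hinv0 : (0 : ℝ) < 1 / q := by positivity
  have hinv1 : 1 / (q : ℝ) < 1 := by rw [div_lt_one hq0]; linarith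
  set R : ℝ := r ^ θ with hR
  have hR0 : 0 < R := Real.rpow_pos_of_pos hr _
  have hR1 : R ≤ 1 := Real.rpow_le_one hr.le hr1.le hθ.le
  have hrR : r ≤ R := by
    calc r = r ^ (1 : ℝ) := (Real.rpow_one r).symm
      _ ≤ r ^ θ := Real.rpow_le_rpow_of_exponent_ge hr hr1.le (by linarith)
  have hrηR : r ^ η ≤ R := Real.rpow_le_rpow_of_exponent_ge hr hr1.le hθη
  obtain ⟨n, hn1, hn2⟩ := exists_nat_pow_near_of_lt_one hR0 hR1 hinv0 hinv1
  set n₀ := n + 1 with hn₀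
  have hq1 : R ≤ q * (1 / (q : ℝ)) ^ n₀ := by
    rw [hn₀, pow_succ]
    calc R ≤ (1 / (q : ℝ)) ^ n := hn2
      _ = q * ((1 / (q : ℝ)) ^ n * (1 / q)) := by field_simp
  have hex : ∃ m : ℕ, c * ((1 / (q : ℝ)) ^ (n₀ + m)) ^ η < 4 * R := by
    have ht : Tendsto (fun m : ℕ => c * ((1 / (q : ℝ)) ^ (n₀ + m)) ^ η) atTop (𝓝 (c * 0 ^ η)) := by
      apply Tendsto.const_mul
      apply Tendsto.rpow_const _ (Or.inr hη.le)
      have := tendsto_pow_atTop_nhds_zero_of_lt_one hinv0.le hinv1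
      exact this.comp (tendsto_add_atTop_nat n₀ |>.congr (fun m => by ring))
    rw [Real.zero_rpow hη.ne', mul_zero] at ht
    exact (ht.eventually_lt_const (by positivity)).exists
  classical
  set m := Nat.find hex with hm
  have hm1 : c * ((1 / (q : ℝ)) ^ (n₀ + m)) ^ η < 4 * R := Nat.find_spec hex
  have hm2 : ∀ k, n₀ ≤ k → k < n₀ + m → 4 * R ≤ c * ((1 / (q : ℝ)) ^ k) ^ η := by
    intro k hk1 hk2
    obtain ⟨j, rfl⟩ := Nat.exists_eq_add_of_le hk1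
    have := Nat.find_min hex (m := j) (by omega)
    exact not_lt.mp this
  set ρ : ℝ := (1 / (q : ℝ)) ^ (n₀ + m) with hρ
  have hρ0 : 0 < ρ := by positivity
  have hρup : ρ ≤ (4 * R / c) ^ (1 / η) := by
    have h3 : ρ ^ η ≤ 4 * R / c := by
      rw [le_div_iff₀ hc]; linarith
    calc ρ = (ρ ^ η) ^ (1 / η) := by
          rw [← Real.rpow_mul hρ0.le, mul_one_div_cancel hη.ne', Real.rpow_one]
      _ ≤ _ := Real.rpow_le_rpow (by positivity) h3 (by positivity)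
  have hρlow : r / q ≤ ρ := by
    rcases Nat.eq_zero_or_pos m with h0 | h0
    · rw [div_le_iff₀ hq0, hρ, h0, add_zero, mul_comm]
      exact hrR.trans hq1
    · have h3 := hm2 (n₀ + (m - 1)) (by omega) (by omega)
      have h4 : r ^ η ≤ ((1 / (q : ℝ)) ^ (n₀ + (m - 1))) ^ η := by
        have h5 : R ≤ ((1 / (q : ℝ)) ^ (n₀ + (m - 1))) ^ η := by
          have h6 : 0 ≤ ((1 / (q : ℝ)) ^ (n₀ + (m - 1))) ^ η := by positivity
          nlinarith
        exact hrηR.trans h5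
      have h5 : r ≤ (1 / (q : ℝ)) ^ (n₀ + (m - 1)) :=
        (Real.rpow_le_rpow_iff hr.le (by positivity) hη).mp h4
      have h6 : ρ = (1 / (q : ℝ)) ^ (n₀ + (m - 1)) * (1 / q) := by
        rw [hρ, ← pow_succ]; congr 1; omega
      rw [h6, div_eq_mul_one_div]
      gcongr
  -- number of cells
  have hc0 := cells_init hR0 hq (fun t ht => (hT t ht).2.1) n₀
  have hc0' : ((cells T q n₀).card : ℝ) ≤ 2 * q + 2 := by
    refine hc0.trans ?_
    have : R * (q : ℝ) ^ n₀ ≤ q := by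
      calc R * (q : ℝ) ^ n₀ ≤ (q * (1 / (q : ℝ)) ^ n₀) * (q : ℝ) ^ n₀ := by gcongr
        _ = q := by rw [one_div, inv_pow]; field_simp
    linarith
  have hc1 := cells_iter hη hK hH hL hq hqK (fun t ht => ⟨(hT t ht).1, (hT t ht).2.2⟩) hm2
  have hc1' : ((cells T q (n₀ + m)).card : ℝ) ≤ ((q : ℝ) - 1) ^ m * (2 * q + 2) := by
    have : ((cells T q (n₀ + m)).card : ℝ) ≤ (((q - 1) ^ m * (cells T q n₀).card : ℕ) : ℝ) := by
      exact_mod_cast hc1
    refine this.trans ?_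
    rw [Nat.cast_mul, Nat.cast_pow, Nat.cast_sub (by omega)]
    push_cast
    have : (0 : ℝ) ≤ (q : ℝ) - 1 := by linarith
    gcongr
  have hκ0 := kap_nonneg hq
  have hκ1 := kap_lt_one hq
  have hpow : ((q : ℝ) - 1) ^ m ≤ (R / ρ) ^ (kap q) := by
    rw [pow_kap hq]
    apply Real.rpow_le_rpow (by positivity) _ hκ0
    rw [le_div_iff₀ hρ0, hρ, pow_add]
    calc (q : ℝ) ^ m * ((1 / (q : ℝ)) ^ n₀ * (1 / (q : ℝ)) ^ m) = (1 / (q : ℝ)) ^ n₀ := by
          rw [one_div, inv_pow, inv_pow]; field_simp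
      _ ≤ R := hn1.le
  have hT1 := card_le_cells hK hη hH hr hq (fun t ht => (hT t ht).1) hsep (n₀ + m)
  rw [← hρ] at hT1
  have hA : 2 * K * r ^ η / r + 2 ≤ (2 * K + 2) * r ^ (η - 1) := by
    have e1 : r ^ (η - 1) = r ^ η / r := by rw [Real.rpow_sub hr, Real.rpow_one]
    have e2 : 1 ≤ r ^ (η - 1) := Real.one_le_rpow_of_pos_of_le_one_of_nonpos hr hr1.le (by linarith)
    calc 2 * K * r ^ η / r + 2 = 2 * K * r ^ (η - 1) + 2 := by rw [e1]; ring
      _ ≤ 2 * K * r ^ (η - 1) + 2 * r ^ (η - 1) := by linarith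
      _ = _ := by ring
  have hB : ρ / r + 2 ≤ (1 + 2 * q) * (ρ / r) := by
    have : 1 / (q : ℝ) ≤ ρ / r := by
      rw [div_le_div_iff₀ hq0 hr]
      rw [div_le_iff₀ hq0] at hρlow
      linarith
    have h3 : 2 ≤ 2 * q * (ρ / r) := by
      calc (2 : ℝ) = 2 * q * (1 / q) := by field_simp
        _ ≤ _ := by gcongr
    linarith
  have hr2 : r ^ (η - 2) = r ^ (η - 1) / r := by
    rw [show η - 2 = (η - 1) - 1 by ring, Real.rpow_sub hr, Real.rpow_one]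
  have hRκ : R ^ (kap q) = r ^ (θ * kap q) := by rw [hR, ← Real.rpow_mul hr.le]
  have hρκ : ρ ^ (1 - kap q) ≤ ((4 / c) ^ (1 / η)) ^ (1 - kap q) * r ^ (θ / η * (1 - kap q)) := by
    calc ρ ^ (1 - kap q) ≤ ((4 * R / c) ^ (1 / η)) ^ (1 - kap q) :=
          Real.rpow_le_rpow hρ0.le hρup (by linarith)
      _ = ((4 / c) ^ (1 / η)) ^ (1 - kap q) * r ^ (θ / η * (1 - kap q)) := by
          rw [show 4 * R / c = 4 / c * R by ring, Real.mul_rpow (by positivity) hR0.le,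
            Real.mul_rpow (by positivity) (by positivity), hR, ← Real.rpow_mul hr.le,
            ← Real.rpow_mul hr.le]
          congr 2; ring
  calc (T.card : ℝ) ≤ (2 * K * r ^ η / r + 2) * (ρ / r + 2) * (cells T q (n₀ + m)).card := hT1
    _ ≤ ((2 * K + 2) * r ^ (η - 1)) * ((1 + 2 * q) * (ρ / r)) *
          ((R / ρ) ^ (kap q) * (2 * q + 2)) := by
        have hcard : ((cells T q (n₀ + m)).card : ℝ) ≤ (R / ρ) ^ (kap q) * (2 * q + 2) :=
          hc1'.trans (by gcongr)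
        gcongr
    _ = ((2 * K + 2) * (1 + 2 * q) * (2 * q + 2)) * (r ^ (η - 2) * R ^ (kap q) * ρ ^ (1 - kap q)) := by
        rw [hr2, Real.div_rpow hR0.le hρ0.le, Real.rpow_sub hρ0, Real.rpow_one]
        field_simp
    _ ≤ ((2 * K + 2) * (1 + 2 * q) * (2 * q + 2)) * (r ^ (η - 2) * R ^ (kap q) *
          (((4 / c) ^ (1 / η)) ^ (1 - kap q) * r ^ (θ / η * (1 - kap q)))) := by
        gcongr
    _ = cst K c η q * r ^ (expo θ η q) := by
        rw [hRκ, cst, expo]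
        have : θ * kap q + θ / η * (1 - kap q) + η - 2 =
            (η - 2) + θ * kap q + θ / η * (1 - kap q) := by ring
        rw [this, Real.rpow_add hr, Real.rpow_add hr]
        ring

end Pool.Agent.Lib.MP_6b2627_an
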