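import Pool.Agent.Lib.MP_6b2627_an.Rough

/-!
# Counting q-adic cells that meet a horizontal strip
-/

open Set Filter Topology Metric

namespace Pool.Agent.Lib.MP_6b2627_an

lemma floor_card {S : Finset ℤ} {x L : ℝ} (hL : 0 ≤ L)
    (h : ∀ z ∈ S, ∃ v ∈ Icc x (x + L), z = ⌊v⌋) : S.card ≤ ⌊L + 2⌋₊ := by
  have hsub : S ⊆ Finset.Icc ⌊x⌋ ⌊x + L⌋ := by
    intro z hz
    obtain ⟨v, hv, rfl⟩ := h z hz
    rw [Finset.mem_Icc]
    exact ⟨Int.floor_le_floor hv.1, Int.floor_le_floor hv.2⟩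
  refine (Finset.card_le_card hsub).trans ?_
  rw [Int.card_Icc]
  apply Nat.le_floor
  have h1 : (⌊x + L⌋ : ℝ) ≤ x + L := Int.floor_le _
  have h2 : x - 1 < ⌊x⌋ := Int.sub_one_lt_floor _
  rcases le_total 0 (⌊x + L⌋ + 1 - ⌊x⌋) with h0 | h0
  · have : (((⌊x + L⌋ + 1 - ⌊x⌋).toNat : ℤ) : ℝ) = ((⌊x + L⌋ + 1 - ⌊x⌋ : ℤ) : ℝ) := by
      rw [Int.toNat_of_nonneg h0]
    rw [Int.cast_natCast] at this
    rw [this]
    push_cast
    linarith
  · rw [Int.toNat_of_nonpos h0]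
    simp; linarith

/-- q-adic cells of level `n` that meet `T` -/
noncomputable def cells (T : Finset ℝ) (q n : ℕ) : Finset ℤ := T.image fun t => ⌊t * (q : ℝ) ^ n⌋

lemma cells_succ_image (T : Finset ℝ) {q : ℕ} (hq : 2 ≤ q) (n : ℕ) :
    (cells T q (n + 1)).image (fun z => z / (q : ℤ)) = cells T q n := by
  unfold cells
  rw [Finset.image_image]
  apply Finset.image_congr
  intro t _
  have hq0 : (q : ℝ) ≠ 0 := by
    have : (0 : ℝ) < q := by exact_mod_cast (by omega : 0 < q)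
    exact this.ne'
  simp only [Function.comp]
  have := Int.floor_div_natCast (t * (q : ℝ) ^ (n + 1)) q
  rw [← this]
  congr 1
  rw [pow_succ]
  field_simp

lemma cells_step {g : ℝ → ℝ} {K c η R y₀ : ℝ} (hη : 0 < η) (hK : 0 ≤ K)
    (hH : ∀ s ∈ Icc (0 : ℝ) 1, ∀ t ∈ Icc (0 : ℝ) 1, |g s - g t| ≤ K * |s - t| ^ η)
    (hL : ∀ u ρ : ℝ, 0 ≤ u → 0 < ρ → u + ρ ≤ 1 → ∃ s ∈ Icc u (u + ρ), ∃ t ∈ Icc u (u + ρ),
      c * ρ ^ η ≤ |g s - g t|)
    {q : ℕ} (hq : 2 ≤ q) (hqK : K * (1 / (q : ℝ)) ^ η ≤ c / 4)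
    {T : Finset ℝ} (hT : ∀ t ∈ T, t ∈ Icc (0 : ℝ) 1 ∧ |g t - y₀| < R)
    {n : ℕ} (hn : 4 * R ≤ c * ((1 / (q : ℝ)) ^ n) ^ η) :
    (cells T q (n + 1)).card ≤ (q - 1) * (cells T q n).card := by
  classical
  rw [← cells_succ_image T hq n]
  apply Finset.card_le_mul_card_image
  intro b hb
  rw [cells_succ_image T hq n] at hb
  obtain ⟨t₀, ht₀, hbt⟩ := Finset.mem_image.mp hb
  have hq0 : (0 : ℝ) < q := by exact_mod_cast (by omega : 0 < q)
  have hqn : (0 : ℝ) < (q : ℝ) ^ n := by positivity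
  have hqZ : (0 : ℤ) < (q : ℤ) := by exact_mod_cast (by omega : 0 < q)
  have ht01 := (hT t₀ ht₀).1
  have hb0 : 0 ≤ b := by
    rw [← hbt]; exact Int.floor_nonneg.mpr (mul_nonneg ht01.1 hqn.le)
  -- find a forbidden digit
  have key : ∃ d₀ : ℤ, 0 ≤ d₀ ∧ d₀ < q ∧
      ∀ t ∈ T, ⌊t * (q : ℝ) ^ (n + 1)⌋ ≠ q * b + d₀ := by
    by_cases hcase : b + 1 ≤ (q : ℤ) ^ n
    · set u : ℝ := (b : ℝ) / (q : ℝ) ^ n with hu
      set ρ : ℝ := (1 / (q : ℝ)) ^ n with hρ
      have hρe : ρ = 1 / (q : ℝ) ^ n := by rw [hρ, one_div, inv_pow, one_div]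
      have hρ0 : 0 < ρ := by rw [hρe]; positivity
      have hu0 : 0 ≤ u := by
        have : (0 : ℝ) ≤ b := by exact_mod_cast hb0
        positivity
      have huρ : u + ρ = ((b : ℝ) + 1) / (q : ℝ) ^ n := by rw [hu, hρe]; ring
      have huρ1 : u + ρ ≤ 1 := by
        rw [huρ, div_le_one hqn]
        exact_mod_cast hcase
      obtain ⟨s, hs, t, ht, hst⟩ := hL u ρ hu0 hρ0 huρ1
      have hw : ∃ w ∈ Icc u (u + ρ), c / 2 * ρ ^ η ≤ |g w - y₀| := by
        by_contra hcon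
        push Not at hcon
        have h1 := hcon s hs
        have h2 := hcon t ht
        have h3 : |g s - g t| ≤ |g s - y₀| + |g t - y₀| := by
          have : g s - g t = (g s - y₀) - (g t - y₀) := by ring
          rw [this]; exact abs_sub _ _
        linarith
      obtain ⟨w, hw, hwg⟩ := hw
      have hw1 : (b : ℝ) ≤ w * (q : ℝ) ^ n := by
        have := hw.1
        rw [hu, div_le_iff₀ hqn] at this
        exact this
      have hw2 : w * (q : ℝ) ^ n ≤ b + 1 := by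
        have := hw.2
        rw [huρ, le_div_iff₀ hqn] at this
        exact this
      have e1 : (q : ℝ) * b ≤ w * (q : ℝ) ^ (n + 1) := by
        rw [pow_succ]; nlinarith
      have e2 : w * (q : ℝ) ^ (n + 1) ≤ q * b + q := by
        rw [pow_succ]; nlinarith
      set zw : ℤ := ⌊w * (q : ℝ) ^ (n + 1)⌋ with hzw
      have hz1 : (q : ℤ) * b ≤ zw := by
        rw [hzw, Int.le_floor]; push_cast; exact e1
      have hzle : (zw : ℝ) ≤ w * (q : ℝ) ^ (n + 1) := Int.floor_le _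
      have hzlt : w * (q : ℝ) ^ (n + 1) < zw + 1 := Int.lt_floor_add_one _
      refine ⟨min (zw - q * b) (q - 1), le_min (by linarith) (by linarith),
        lt_of_le_of_lt (min_le_right _ _) (by linarith), ?_⟩
      intro t' ht' heq
      have hlt1 := Int.floor_le (t' * (q : ℝ) ^ (n + 1))
      have hlt2 := Int.lt_floor_add_one (t' * (q : ℝ) ^ (n + 1))
      have hdist : |t' - w| * (q : ℝ) ^ (n + 1) ≤ 1 := by
        have hqn1 : (0 : ℝ) < (q : ℝ) ^ (n + 1) := by positivity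
        rw [← abs_of_pos hqn1, ← abs_mul, sub_mul, abs_le]
        rcases le_total (zw - q * b) (q - 1 : ℤ) with h | h
        · rw [min_eq_left h] at heq
          have heq' : ⌊t' * (q : ℝ) ^ (n + 1)⌋ = zw := by rw [heq]; ring
          rw [heq'] at hlt1 hlt2
          constructor <;> linarith
        · rw [min_eq_right h] at heq
          rw [heq] at hlt1 hlt2
          push_cast at hlt1 hlt2
          have h' : ((q : ℤ) : ℝ) - 1 ≤ zw - q * b := by exact_mod_cast h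
          push_cast at h'
          constructor <;> linarith
      have hw01 : w ∈ Icc (0 : ℝ) 1 := ⟨hu0.trans hw.1, hw.2.trans huρ1⟩
      have h4 := hH t' (hT t' ht').1 w hw01
      have h5 : |t' - w| ≤ (1 / (q : ℝ)) ^ (n + 1) := by
        rw [one_div, inv_pow, ← one_div, le_div_iff₀ (by positivity)]
        exact hdist
      have h6 : K * |t' - w| ^ η ≤ c / 4 * ρ ^ η := by
        calc K * |t' - w| ^ η ≤ K * ((1 / (q : ℝ)) ^ (n + 1)) ^ η := by
              gcongr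
          _ = K * (1 / (q : ℝ)) ^ η * ρ ^ η := by
              rw [pow_succ, mul_comm ((1 / (q : ℝ)) ^ n), Real.mul_rpow (by positivity)
                (by positivity)]
              ring
          _ ≤ c / 4 * ρ ^ η := by gcongr
      have h7 : |g w - y₀| ≤ |g t' - g w| + |g t' - y₀| := by
        have : g w - y₀ = -(g t' - g w) + (g t' - y₀) := by ring
        rw [this]
        refine (abs_add_le _ _).trans ?_
        rw [abs_neg]
      have h8 := (hT t' ht').2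
      linarith
    · -- the last cell
      refine ⟨1, by norm_num, by exact_mod_cast (by omega : 1 < q), ?_⟩
      intro t ht heq
      have hb1 : (q : ℤ) ^ n ≤ b := by omega
      have hb1' : ((q : ℝ)) ^ n ≤ b := by exact_mod_cast hb1
      have h1 := Int.floor_le (t * (q : ℝ) ^ (n + 1))
      rw [heq] at h1
      push_cast at h1
      have h2 := (hT t ht).1.2
      have h3 : t * (q : ℝ) ^ (n + 1) ≤ (q : ℝ) ^ (n + 1) := by
        have : (0 : ℝ) < (q : ℝ) ^ (n + 1) := by positivity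
        nlinarith
      have h4 : (q : ℝ) ^ (n + 1) ≤ q * b := by
        rw [pow_succ, mul_comm]
        gcongr
      linarith
  obtain ⟨d₀, hd0, hdq, hd⟩ := key
  have hsub : (cells T q (n + 1)).filter (fun z => z / (q : ℤ) = b) ⊆
      ((Finset.Ico (0 : ℤ) q).erase d₀).image (fun d => q * b + d) := by
    intro z hz
    rw [Finset.mem_filter] at hz
    rw [Finset.mem_image]
    refine ⟨z % q, ?_, ?_⟩
    · rw [Finset.mem_erase, Finset.mem_Ico]
      refine ⟨?_, Int.emod_nonneg _ hqZ.ne', Int.emod_lt_of_pos _ hqZ⟩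
      intro h
      obtain ⟨t, ht, htz⟩ := Finset.mem_image.mp hz.1
      apply hd t ht
      rw [htz, ← hz.2, ← h]
      exact (Int.mul_ediv_add_emod z q).symm
    · rw [← hz.2]; exact Int.mul_ediv_add_emod z q
  refine (Finset.card_le_card hsub).trans (Finset.card_image_le.trans ?_)
  rw [Finset.card_erase_of_mem (by rw [Finset.mem_Ico]; exact ⟨hd0, hdq⟩), Int.card_Ico]
  simp

lemma cells_iter {g : ℝ → ℝ} {K c η R y₀ : ℝ} (hη : 0 < η) (hK : 0 ≤ K)
    (hH : ∀ s ∈ Icc (0 : ℝ) 1, ∀ t ∈ Icc (0 : ℝ) 1, |g s - g t| ≤ K * |s - t| ^ η)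
    (hL : ∀ u ρ : ℝ, 0 ≤ u → 0 < ρ → u + ρ ≤ 1 → ∃ s ∈ Icc u (u + ρ), ∃ t ∈ Icc u (u + ρ),
      c * ρ ^ η ≤ |g s - g t|)
    {q : ℕ} (hq : 2 ≤ q) (hqK : K * (1 / (q : ℝ)) ^ η ≤ c / 4)
    {T : Finset ℝ} (hT : ∀ t ∈ T, t ∈ Icc (0 : ℝ) 1 ∧ |g t - y₀| < R)
    {n₀ m : ℕ} (hn : ∀ n, n₀ ≤ n → n < n₀ + m → 4 * R ≤ c * ((1 / (q : ℝ)) ^ n) ^ η) :
    (cells T q (n₀ + m)).card ≤ (q - 1) ^ m * (cells T q n₀).card := by
  induction m with
  | zero => simp
  | succ m ih =>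
    have h1 := ih (fun n h1 h2 => hn n h1 (by omega))
    have h2 := cells_step hη hK hH hL hq hqK hT (hn (n₀ + m) (by omega) (by omega))
    calc (cells T q (n₀ + (m + 1))).card ≤ (q - 1) * (cells T q (n₀ + m)).card := h2
      _ ≤ (q - 1) * ((q - 1) ^ m * (cells T q n₀).card) := Nat.mul_le_mul_left _ h1
      _ = _ := by rw [pow_succ]; ring

/-- points over one cell -/
lemma card_le_cells {g : ℝ → ℝ} {K η r : ℝ} (hK : 0 ≤ K) (hη : 0 < η)
    (hH : ∀ s ∈ Icc (0 : ℝ) 1, ∀ t ∈ Icc (0 : ℝ) 1, |g s - g t| ≤ K * |s - t| ^ η)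
    (hr : 0 < r) {q : ℕ} (hq : 2 ≤ q)
    {T : Finset ℝ} (hT : ∀ t ∈ T, t ∈ Icc (0 : ℝ) 1)
    (hsep : ∀ s ∈ T, ∀ t ∈ T, ⌊s / r⌋ = ⌊t / r⌋ → ⌊g s / r⌋ = ⌊g t / r⌋ → s = t) (n : ℕ) :
    (T.card : ℝ) ≤ (2 * K * r ^ η / r + 2) * (((1 / (q : ℝ)) ^ n) / r + 2) * (cells T q n).card := by
  classical
  set a₁ : ℕ := ⌊((1 / (q : ℝ)) ^ n) / r + 2⌋₊ with ha₁
  set a₂ : ℕ := ⌊2 * K * r ^ η / r + 2⌋₊ with ha₂
  have hq0 : (0 : ℝ) < q := by exact_mod_cast (by omega : 0 < q)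
  have hqn : (0 : ℝ) < (q : ℝ) ^ n := by positivity
  have h1 : T.card ≤ (a₂ * a₁) * (cells T q n).card := by
    unfold cells
    apply Finset.card_le_mul_card_image
    intro z _
    set T₁ := T.filter (fun t => ⌊t * (q : ℝ) ^ n⌋ = z) with hT₁
    have h2 : T₁.card ≤ a₂ * (T₁.image (fun t => ⌊t / r⌋)).card := by
      apply Finset.card_le_mul_card_image
      intro i _
      set T₂ := T₁.filter (fun t => ⌊t / r⌋ = i) with hT₂
      have hmem : ∀ t ∈ T₂, t ∈ T ∧ ⌊t / r⌋ = i := by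
        intro t ht
        rw [hT₂, Finset.mem_filter, hT₁, Finset.mem_filter] at ht
        exact ⟨ht.1.1, ht.2⟩
      have hinj : Set.InjOn (fun t => ⌊g t / r⌋) T₂ := by
        intro s hs t ht hst
        have hs' := hmem s hs
        have ht' := hmem t ht
        exact hsep s hs'.1 t ht'.1 (hs'.2.trans ht'.2.symm) hst
      rw [← Finset.card_image_of_injOn hinj]
      rcases T₂.eq_empty_or_nonempty with he | ⟨t₀, ht₀⟩
      · rw [he]; simp
      · have ht₀' := hmem t₀ ht₀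
        have hL0 : 0 ≤ 2 * K * r ^ η / r := by positivity
        apply floor_card (x := (g t₀ - K * r ^ η) / r) hL0
        intro z' hz'
        obtain ⟨t, ht, rfl⟩ := Finset.mem_image.mp hz'
        refine ⟨g t / r, ?_, rfl⟩
        have ht' := hmem t ht
        have hd : |t - t₀| ≤ r := by
          have e1 := Int.abs_sub_lt_one_of_floor_eq_floor (ht'.2.trans ht₀'.2.symm)
          rw [← sub_div, abs_div, abs_of_pos hr, div_lt_one hr] at e1
          exact e1.le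
        have hg := hH t (hT t ht'.1) t₀ (hT t₀ ht₀'.1)
        have hg2 : |g t - g t₀| ≤ K * r ^ η := hg.trans (by gcongr)
        rw [abs_le] at hg2
        constructor
        · gcongr; linarith
        · rw [← add_div]; gcongr; linarith
    have h3 : (T₁.image (fun t => ⌊t / r⌋)).card ≤ a₁ := by
      have hL0 : 0 ≤ ((1 / (q : ℝ)) ^ n) / r := by positivity
      apply floor_card (x := (z / (q : ℝ) ^ n) / r) hL0
      intro z' hz'
      obtain ⟨t, ht, rfl⟩ := Finset.mem_image.mp hz'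
      refine ⟨t / r, ?_, rfl⟩
      rw [hT₁, Finset.mem_filter] at ht
      have e1 := Int.floor_le (t * (q : ℝ) ^ n)
      have e2 := Int.lt_floor_add_one (t * (q : ℝ) ^ n)
      rw [ht.2] at e1 e2
      constructor
      · gcongr
        rw [div_le_iff₀ hqn]; exact e1
      · rw [← add_div]
        gcongr
        rw [one_div, inv_pow, ← one_div, ← add_div, le_div_iff₀ hqn]
        exact e2.le
    exact h2.trans (Nat.mul_le_mul_left _ h3)
  have h4 : (a₁ : ℝ) ≤ ((1 / (q : ℝ)) ^ n) / r + 2 := Nat.floor_le (by positivity)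
  have h5 : (a₂ : ℝ) ≤ 2 * K * r ^ η / r + 2 := Nat.floor_le (by positivity)
  calc (T.card : ℝ) ≤ ((a₂ * a₁) * (cells T q n).card : ℕ) := by exact_mod_cast h1
    _ = (a₂ : ℝ) * a₁ * (cells T q n).card := by push_cast; ring
    _ ≤ _ := by gcongr

/-- cells near a point -/
lemma cells_init {R x₀ : ℝ} (hR : 0 < R) {q : ℕ} (hq : 2 ≤ q)
    {T : Finset ℝ} (hT : ∀ t ∈ T, |t - x₀| < R) (n : ℕ) :
    ((cells T q n).card : ℝ) ≤ 2 * R * (q : ℝ) ^ n + 2 := by
  have hq0 : (0 : ℝ) < q := by exact_mod_cast (by omega : 0 < q)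
  have hqn : (0 : ℝ) < (q : ℝ) ^ n := by positivity
  have h1 : (cells T q n).card ≤ ⌊2 * R * (q : ℝ) ^ n + 2⌋₊ := by
    apply floor_card (x := (x₀ - R) * (q : ℝ) ^ n) (by positivity)
    intro z hz
    obtain ⟨t, ht, rfl⟩ := Finset.mem_image.mp hz
    refine ⟨t * (q : ℝ) ^ n, ?_, rfl⟩
    have := hT t ht
    rw [abs_lt] at this
    constructor
    · gcongr; linarith
    · have : t * (q : ℝ) ^ n ≤ (x₀ + R) * (q : ℝ) ^ n := by gcongr; linarith
      linarith
  exact (Nat.cast_le.mpr h1).trans (Nat.floor_le (by positivity))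

end Pool.Agent.Lib.MP_6b2627_an
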