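import Mathlib

/-!
# The space `C^ω[0,1]`, graphs and the Assouad spectrum: definitions
-/

open Set Filter Topology Metric
open scoped ENNReal

namespace Pool.Agent.Lib.MP_6b2627_an

/-- A concave modulus of continuity `ω : [0,1] → [0,∞)` (only the values on `[0,1]` matter): it is
non-decreasing, positive on `(0,1]`, with `lim_{t → 0} ω(t) = ω(0) = 0`, and concave.  (A concave
modulus of continuity with values in `[0,∞]` is automatically finite.) -/
structure ConcaveModulus where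
  /-- the function -/
  toFun : ℝ → ℝ
  monotone' : MonotoneOn toFun (Icc 0 1)
  pos' : ∀ t ∈ Ioc (0 : ℝ) 1, 0 < toFun t
  zero' : toFun 0 = 0
  tendsto' : Tendsto toFun (𝓝[>] 0) (𝓝 0)
  concave' : ConcaveOn ℝ (Icc 0 1) toFun

instance : CoeFun ConcaveModulus (fun _ => ℝ → ℝ) := ⟨ConcaveModulus.toFun⟩

/-- `[f]_ω = sup_{x ≠ y} |f(x) - f(y)| / ω(|x - y|)`, with values in `[0,∞]`. -/
noncomputable def semi (ω : ConcaveModulus) (f : Icc (0 : ℝ) 1 → ℝ) : ℝ≥0∞ :=
  ⨆ (x : Icc (0 : ℝ) 1) (y : Icc (0 : ℝ) 1) (_ : x ≠ y),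
    ENNReal.ofReal (|f x - f y| / ω |(x : ℝ) - y|)

lemma semi_le_iff (ω : ConcaveModulus) (f : Icc (0 : ℝ) 1 → ℝ) {C : ℝ} (hC : 0 ≤ C) :
    semi ω f ≤ ENNReal.ofReal C ↔ ∀ x y : Icc (0 : ℝ) 1, |f x - f y| ≤ C * ω |(x : ℝ) - y| := by
  unfold semi
  simp only [iSup_le_iff]
  refine forall_congr' fun x => forall_congr' fun y => ?_
  by_cases hxy : x = y
  · subst hxy
    simp [ω.zero']
  · have hne : (x : ℝ) ≠ y := fun h => hxy (Subtype.ext h)
    have hmem : |(x : ℝ) - y| ∈ Ioc (0 : ℝ) 1 := by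
      refine ⟨abs_pos.mpr (sub_ne_zero.mpr hne), ?_⟩
      rw [abs_le]
      have := x.2.1; have := x.2.2; have := y.2.1; have := y.2.2
      constructor <;> linarith
    have hpos := ω.pos' _ hmem
    constructor
    · intro h
      have := (ENNReal.ofReal_le_ofReal_iff hC).mp (h hxy)
      rwa [div_le_iff₀ hpos] at this
    · intro h _
      apply ENNReal.ofReal_le_ofReal
      rwa [div_le_iff₀ hpos]

lemma semi_add_le (ω : ConcaveModulus) (f g : Icc (0 : ℝ) 1 → ℝ) :
    semi ω (f + g) ≤ semi ω f + semi ω g := by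
  refine iSup_le fun x => iSup_le fun y => iSup_le fun hxy => ?_
  have hne : (x : ℝ) ≠ y := fun h => hxy (Subtype.ext h)
  have hmem : |(x : ℝ) - y| ∈ Ioc (0 : ℝ) 1 := by
    refine ⟨abs_pos.mpr (sub_ne_zero.mpr hne), ?_⟩
    rw [abs_le]
    have := x.2.1; have := x.2.2; have := y.2.1; have := y.2.2
    constructor <;> linarith
  have hpos := ω.pos' _ hmem
  calc ENNReal.ofReal (|(f + g) x - (f + g) y| / ω |(x : ℝ) - y|)
      ≤ ENNReal.ofReal (|f x - f y| / ω |(x : ℝ) - y| + |g x - g y| / ω |(x : ℝ) - y|) := by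
        apply ENNReal.ofReal_le_ofReal
        rw [← add_div]
        gcongr
        have : (f + g) x - (f + g) y = (f x - f y) + (g x - g y) := by
          simp only [Pi.add_apply]; ring
        rw [this]
        exact abs_add_le _ _
    _ = ENNReal.ofReal (|f x - f y| / ω |(x : ℝ) - y|) +
          ENNReal.ofReal (|g x - g y| / ω |(x : ℝ) - y|) :=
        ENNReal.ofReal_add (by positivity) (by positivity)
    _ ≤ semi ω f + semi ω g := by
        apply add_le_add
        · exact le_iSup_of_le x (le_iSup_of_le y (le_iSup_of_le hxy le_rfl))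
        · exact le_iSup_of_le x (le_iSup_of_le y (le_iSup_of_le hxy le_rfl))

lemma semi_neg (ω : ConcaveModulus) (f : Icc (0 : ℝ) 1 → ℝ) : semi ω (-f) = semi ω f := by
  unfold semi
  refine iSup_congr fun x => iSup_congr fun y => iSup_congr fun _ => ?_
  have : |(-f) x - (-f) y| = |f x - f y| := by
    rw [← abs_neg]; congr 1; simp only [Pi.neg_apply]; ring
  rw [this]

lemma semi_zero (ω : ConcaveModulus) : semi ω 0 = 0 := by
  have := (semi_le_iff ω 0 le_rfl).mpr (by intro x y; simp)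
  simpa using this

/-- The space `C^ω[0,1] = {f : [0,1] → ℝ : [f]_ω < ∞}`. -/
def COmega (ω : ConcaveModulus) : Type := {f : Icc (0 : ℝ) 1 → ℝ // semi ω f < ⊤}

/-- the underlying function of an element of `C^ω[0,1]` -/
def COmega.fn {ω : ConcaveModulus} (f : COmega ω) : Icc (0 : ℝ) 1 → ℝ := f.1

/-- The norm `‖f‖_ω = ‖f‖_∞ + [f]_ω` (for functions with `[f]_ω < ∞`, which are bounded). -/
noncomputable def normOmega (ω : ConcaveModulus) (f : Icc (0 : ℝ) 1 → ℝ) : ℝ :=
  (⨆ x, |f x|) + (semi ω f).toReal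

section norm

variable {ω : ConcaveModulus} {f g : Icc (0 : ℝ) 1 → ℝ}

lemma semi_add_lt (hf : semi ω f < ⊤) (hg : semi ω g < ⊤) : semi ω (f + g) < ⊤ :=
  lt_of_le_of_lt (semi_add_le ω f g) (ENNReal.add_lt_top.mpr ⟨hf, hg⟩)

lemma semi_sub_lt (hf : semi ω f < ⊤) (hg : semi ω g < ⊤) : semi ω (f - g) < ⊤ := by
  rw [sub_eq_add_neg]
  exact semi_add_lt hf (by rwa [semi_neg])

lemma abs_sub_le_semi (hf : semi ω f < ⊤) (x y : Icc (0 : ℝ) 1) :
    |f x - f y| ≤ (semi ω f).toReal * ω |(x : ℝ) - y| := by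
  refine (semi_le_iff ω f ENNReal.toReal_nonneg).mp ?_ x y
  rw [ENNReal.ofReal_toReal hf.ne]

lemma bddAbove_of_semi (hf : semi ω f < ⊤) : BddAbove (range fun x => |f x|) := by
  refine ⟨|f ⟨0, by simp⟩| + (semi ω f).toReal * ω 1, ?_⟩
  rintro _ ⟨x, rfl⟩
  have h := abs_sub_le_semi hf x ⟨0, by simp⟩
  have hx := x.2
  have hm : ω |(x : ℝ) - (0 : ℝ)| ≤ ω 1 := by
    apply ω.monotone'
    · rw [sub_zero, abs_of_nonneg hx.1]; exact hx
    · simp
    · rw [sub_zero, abs_of_nonneg hx.1]; exact hx.2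
  have h2 : (semi ω f).toReal * ω |(x : ℝ) - (0 : ℝ)| ≤ (semi ω f).toReal * ω 1 := by
    gcongr
  have h3 : |f x| ≤ |f ⟨0, by simp⟩| + |f x - f ⟨0, by simp⟩| := by
    calc |f x| = |f ⟨0, by simp⟩ + (f x - f ⟨0, by simp⟩)| := by congr 1; ring
      _ ≤ _ := abs_add_le _ _
  show |f x| ≤ _
  linarith

lemma le_sup (hf : semi ω f < ⊤) (x : Icc (0 : ℝ) 1) : |f x| ≤ ⨆ x, |f x| :=
  le_ciSup (bddAbove_of_semi hf) x

lemma sup_nonneg (hf : semi ω f < ⊤) : 0 ≤ ⨆ x, |f x| :=
  (abs_nonneg _).trans (le_sup hf ⟨0, by simp⟩)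

instance : Nonempty (Icc (0 : ℝ) 1) := ⟨⟨0, by simp⟩⟩

lemma normOmega_zero : normOmega ω 0 = 0 := by
  unfold normOmega
  rw [semi_zero]
  simp

lemma normOmega_neg (f : Icc (0 : ℝ) 1 → ℝ) : normOmega ω (-f) = normOmega ω f := by
  unfold normOmega
  rw [semi_neg]
  simp

lemma normOmega_add_le (hf : semi ω f < ⊤) (hg : semi ω g < ⊤) :
    normOmega ω (f + g) ≤ normOmega ω f + normOmega ω g := by
  unfold normOmega
  have h1 : (⨆ x, |(f + g) x|) ≤ (⨆ x, |f x|) + ⨆ x, |g x| := by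
    apply ciSup_le
    intro x
    exact (abs_add_le _ _).trans (add_le_add (le_sup hf x) (le_sup hg x))
  have h2 : (semi ω (f + g)).toReal ≤ (semi ω f).toReal + (semi ω g).toReal := by
    rw [← ENNReal.toReal_add hf.ne hg.ne]
    apply ENNReal.toReal_mono (ENNReal.add_lt_top.mpr ⟨hf, hg⟩).ne
    exact semi_add_le ω _ _
  linarith

lemma eq_zero_of_normOmega (hf : semi ω f < ⊤) (h : normOmega ω f = 0) : f = 0 := by
  unfold normOmega at h
  have h1 := sup_nonneg hf
  have h2 : 0 ≤ (semi ω f).toReal := ENNReal.toReal_nonneg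
  have h3 : ⨆ x, |f x| = 0 := by linarith
  funext x
  have := le_sup hf x
  rw [h3] at this
  exact abs_eq_zero.mp (le_antisymm this (abs_nonneg _))

end norm

lemma dist_self' {ω : ConcaveModulus} (f : COmega ω) : normOmega ω (f.fn - f.fn) = 0 := by
  rw [sub_self, normOmega_zero]

lemma dist_comm' {ω : ConcaveModulus} (f g : COmega ω) :
    normOmega ω (f.fn - g.fn) = normOmega ω (g.fn - f.fn) := by
  rw [← normOmega_neg, neg_sub]

lemma dist_triangle' {ω : ConcaveModulus} (f g h : COmega ω) :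
    normOmega ω (f.fn - h.fn) ≤ normOmega ω (f.fn - g.fn) + normOmega ω (g.fn - h.fn) := by
  have : f.fn - h.fn = (f.fn - g.fn) + (g.fn - h.fn) := by abel
  rw [this]
  exact normOmega_add_le (semi_sub_lt f.2 g.2) (semi_sub_lt g.2 h.2)

lemma eq_of_dist' {ω : ConcaveModulus} {f g : COmega ω} (h : normOmega ω (f.fn - g.fn) = 0) :
    f = g :=
  Subtype.ext (sub_eq_zero.mp (eq_zero_of_normOmega (semi_sub_lt f.2 g.2) h))

/-- The metric `d(f,g) = ‖f - g‖_ω` of the normed space `(C^ω[0,1], ‖·‖_ω)`; it gives the topology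
of `C^ω[0,1]` used below (for open and for residual sets). -/
noncomputable instance (ω : ConcaveModulus) : MetricSpace (COmega ω) where
  dist f g := normOmega ω (f.fn - g.fn)
  dist_self := dist_self'
  dist_comm := dist_comm'
  dist_triangle := dist_triangle'
  eq_of_dist_eq_zero := eq_of_dist'

/-- The graph `G_f = {(x, f(x)) : x ∈ [0,1]}` in the Euclidean plane. -/
def graph (f : Icc (0 : ℝ) 1 → ℝ) : Set (EuclideanSpace ℝ (Fin 2)) :=
  range fun x : Icc (0 : ℝ) 1 => !₂[(x : ℝ), f x]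

/-- `N_r(E)`: the largest number of pairwise disjoint closed balls of radius `r` centred in `E`. -/
noncomputable def packing (r : ℝ) (E : Set (EuclideanSpace ℝ (Fin 2))) : ℕ∞ :=
  ⨆ (S : Finset (EuclideanSpace ℝ (Fin 2))) (_ : (S : Set (EuclideanSpace ℝ (Fin 2))) ⊆ E)
    (_ : (S : Set (EuclideanSpace ℝ (Fin 2))).PairwiseDisjoint fun p => closedBall p r),
    (S.card : ℕ∞)

/-- The set of admissible exponents `β` in the definition of the Assouad spectrum. -/
def exponents (θ : ℝ) (F : Set (EuclideanSpace ℝ (Fin 2))) : Set ℝ :=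
  {β | ∃ C : ℝ, 0 < C ∧ ∀ r : ℝ, 0 < r → r < 1 → ∀ x ∈ F,
    (packing r (ball x (r ^ θ) ∩ F) : ℝ≥0∞) ≤ ENNReal.ofReal (C * (r ^ (θ - 1)) ^ β)}

/-- The Assouad spectrum `dim_A^θ F`: the infimum of the `β` for which there is `C > 0` with
`N_r(B°(x, r^θ) ∩ F) ≤ C (r^(θ-1))^β` for all `0 < r < 1` and all `x ∈ F`. -/
noncomputable def assouadSpectrum (θ : ℝ) (F : Set (EuclideanSpace ℝ (Fin 2))) : ℝ :=
  sInf (exponents θ F)

end Pool.Agent.Lib.MP_6b2627_an
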