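import Pool.Agent.Lib.MP_6b2627_an.Bound

/-!
# From packing numbers to the Assouad spectrum, completeness of `C^ω`, conclusion
-/

open Set Filter Topology Metric
open scoped ENNReal

namespace Pool.Agent.Lib.MP_6b2627_an

/-- extension of a function on `[0,1]` to the line, constant outside `[0,1]` -/
noncomputable def extend (f : Icc (0 : ℝ) 1 → ℝ) : ℝ → ℝ := IccExtend zero_le_one f

lemma extend_of_mem (f : Icc (0 : ℝ) 1 → ℝ) {t : ℝ} (ht : t ∈ Icc (0 : ℝ) 1) :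
    extend f t = f ⟨t, ht⟩ := IccExtend_of_mem _ _ ht

/-- the two properties of a function that give the bound -/
structure Rough (η K c : ℝ) (f : Icc (0 : ℝ) 1 → ℝ) : Prop where
  hK : 0 ≤ K
  hc : 0 < c
  hc4 : c ≤ 4
  upper : ∀ s ∈ Icc (0 : ℝ) 1, ∀ t ∈ Icc (0 : ℝ) 1, |extend f s - extend f t| ≤ K * |s - t| ^ η
  lower : ∀ u ρ : ℝ, 0 ≤ u → 0 < ρ → u + ρ ≤ 1 → ∃ s ∈ Icc u (u + ρ), ∃ t ∈ Icc u (u + ρ),
      c * ρ ^ η ≤ |extend f s - extend f t|

lemma packing_le_of_card {r B : ℝ} {E : Set (EuclideanSpace ℝ (Fin 2))}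
    (h : ∀ S : Finset (EuclideanSpace ℝ (Fin 2)), (S : Set (EuclideanSpace ℝ (Fin 2))) ⊆ E →
      (S : Set (EuclideanSpace ℝ (Fin 2))).PairwiseDisjoint (fun p => closedBall p r) →
      (S.card : ℝ) ≤ B) : (packing r E : ℝ≥0∞) ≤ ENNReal.ofReal B := by
  have h1 : packing r E ≤ ((⌊B⌋₊ : ℕ) : ℕ∞) := by
    unfold packing
    refine iSup_le fun S => iSup_le fun h1 => iSup_le fun h2 => ?_
    exact_mod_cast Nat.le_floor (h S h1 h2)
  have hB : 0 ≤ B := by
    have := h ∅ (by simp) (by simp)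
    simpa using this
  calc (packing r E : ℝ≥0∞) ≤ (((⌊B⌋₊ : ℕ) : ℕ∞) : ℝ≥0∞) := by exact_mod_cast h1
    _ = ENNReal.ofReal (⌊B⌋₊ : ℝ) := by simp
    _ ≤ ENNReal.ofReal B := ENNReal.ofReal_le_ofReal (Nat.floor_le hB)

lemma dist_coord (p p' : EuclideanSpace ℝ (Fin 2)) (i : Fin 2) : |p i - p' i| ≤ dist p p' := by
  rw [EuclideanSpace.dist_eq]
  apply Real.le_sqrt_of_sq_le
  rw [← Real.dist_eq]
  exact Finset.single_le_sum (f := fun j => dist (p j) (p' j) ^ 2) (fun _ _ => sq_nonneg _)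
    (Finset.mem_univ i)

lemma dist_lt_of_coord {p p' : EuclideanSpace ℝ (Fin 2)} {r : ℝ} (hr : 0 < r)
    (h0 : |p 0 - p' 0| < r) (h1 : |p 1 - p' 1| < r) : dist p p' < 2 * r := by
  rw [EuclideanSpace.dist_eq, Fin.sum_univ_two, Real.sqrt_lt' (by positivity), Real.dist_eq,
    Real.dist_eq]
  have a0 := abs_nonneg (p 0 - p' 0)
  have a1 := abs_nonneg (p 1 - p' 1)
  nlinarith

lemma rough_packing {η K c : ℝ} {f : Icc (0 : ℝ) 1 → ℝ} (hη : 0 < η) (hη1 : η < 1)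
    (hf : Rough η K c f) {q : ℕ} (hq : 2 ≤ q) (hqK : K * (1 / (q : ℝ)) ^ η ≤ c / 4)
    {θ r : ℝ} (hθ : 0 < θ) (hθη : θ ≤ η) (hr : 0 < r) (hr1 : r < 1)
    {x : EuclideanSpace ℝ (Fin 2)} (hx : x ∈ graph f) :
    (packing r (ball x (r ^ θ) ∩ graph f) : ℝ≥0∞) ≤
      ENNReal.ofReal (cst K c η q * r ^ (expo θ η q)) := by
  classical
  apply packing_le_of_card
  intro S hS hdis
  obtain ⟨x₀, rfl⟩ := hx
  have hmem : ∀ p ∈ S, p 0 ∈ Icc (0 : ℝ) 1 ∧ p 1 = extend f (p 0) := by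
    intro p hp
    obtain ⟨-, ⟨t, rfl⟩⟩ := hS hp
    refine ⟨by simp, ?_⟩
    have : (!₂[(t : ℝ), f t] : EuclideanSpace ℝ (Fin 2)) 0 = (t : ℝ) := rfl
    rw [this, extend_of_mem f t.2]
    rfl
  have hinj : Set.InjOn (fun p : EuclideanSpace ℝ (Fin 2) => p 0) S := by
    intro p hp p' hp' h
    have h0 : p 0 = p' 0 := h
    have h1 : p 1 = p' 1 := by rw [(hmem p hp).2, (hmem p' hp').2, h0]
    ext i
    fin_cases i
    · exact h0
    · exact h1
  rw [← Finset.card_image_of_injOn hinj]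
  apply card_bound (g := extend f) (x₀ := (x₀ : ℝ)) hη hη1 hf.hK hf.hc hf.hc4 hf.upper hf.lower
    hq hqK hθ hθη hr hr1
  · intro t ht
    obtain ⟨p, hp, rfl⟩ := Finset.mem_image.mp ht
    refine ⟨(hmem p hp).1, ?_, ?_⟩
    · have h1 : dist p (!₂[(x₀ : ℝ), f x₀]) < r ^ θ := (hS hp).1
      exact lt_of_le_of_lt (dist_coord p (!₂[(x₀ : ℝ), f x₀]) 0) h1
    · have h1 : dist p (!₂[(x₀ : ℝ), f x₀]) < r ^ θ := (hS hp).1
      have h2 := lt_of_le_of_lt (dist_coord p (!₂[(x₀ : ℝ), f x₀]) 1) h1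
      rw [(hmem p hp).2] at h2
      rw [extend_of_mem f x₀.2]
      exact h2
  · intro s hs t ht h1 h2
    obtain ⟨p, hp, rfl⟩ := Finset.mem_image.mp hs
    obtain ⟨p', hp', rfl⟩ := Finset.mem_image.mp ht
    by_contra hne
    have hpp : p ≠ p' := fun h => hne (by rw [h])
    have e1 := Int.abs_sub_lt_one_of_floor_eq_floor h1
    have e2 := Int.abs_sub_lt_one_of_floor_eq_floor h2
    rw [← sub_div, abs_div, abs_of_pos hr, div_lt_one hr] at e1 e2
    simp only at e1 e2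
    rw [← (hmem p hp).2, ← (hmem p' hp').2] at e2
    have h3 := dist_lt_of_coord hr e1 e2
    have h4 := hdis hp hp' hpp
    have h5 : Disjoint (closedBall p r) (closedBall p' r) := h4
    rw [disjoint_closedBall_closedBall_iff hr.le hr.le] at h5
    linarith

lemma one_le_packing {r : ℝ} {E : Set (EuclideanSpace ℝ (Fin 2))} {x : EuclideanSpace ℝ (Fin 2)}
    (hx : x ∈ E) : (1 : ℝ≥0∞) ≤ (packing r E : ℝ≥0∞) := by
  have h : (1 : ℕ∞) ≤ packing r E := by
    unfold packing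
    refine le_iSup_of_le {x} (le_iSup_of_le (by simpa using hx) (le_iSup_of_le (by simp) ?_))
    simp
  calc (1 : ℝ≥0∞) = ((1 : ℕ∞) : ℝ≥0∞) := by simp
    _ ≤ _ := by exact_mod_cast h

lemma exponents_nonneg {θ : ℝ} (hθ1 : θ < 1) (f : Icc (0 : ℝ) 1 → ℝ) {β : ℝ}
    (hβ : β ∈ exponents θ (graph f)) : 0 ≤ β := by
  by_contra hneg
  push Not at hneg
  obtain ⟨C, hC, h⟩ := hβ
  have hpos : 0 < (θ - 1) * β := by nlinarith
  have ht : Tendsto (fun r : ℝ => C * r ^ ((θ - 1) * β)) (𝓝[>] 0) (𝓝 0) := by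
    have : Tendsto (fun r : ℝ => C * r ^ ((θ - 1) * β)) (𝓝[>] 0) (𝓝 (C * 0 ^ ((θ - 1) * β))) := by
      apply Tendsto.const_mul
      apply Tendsto.mono_left _ nhdsWithin_le_nhds
      exact (Real.continuousAt_rpow_const 0 _ (Or.inr hpos.le)).tendsto
    rwa [Real.zero_rpow hpos.ne', mul_zero] at this
  have h1 : ∀ᶠ r : ℝ in 𝓝[>] 0, C * r ^ ((θ - 1) * β) < 1 := ht.eventually_lt_const one_pos
  have h2 : ∀ᶠ r : ℝ in 𝓝[>] 0, r < 1 := by
    apply Filter.Eventually.filter_mono nhdsWithin_le_nhds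
    exact eventually_lt_nhds (by norm_num)
  obtain ⟨r, ⟨hr1, hr2⟩, hr0⟩ := ((h1.and h2).and self_mem_nhdsWithin).exists
  have hr0' : 0 < r := hr0
  set x : EuclideanSpace ℝ (Fin 2) := !₂[((⟨0, by simp⟩ : Icc (0 : ℝ) 1) : ℝ), f ⟨0, by simp⟩] with hx
  have hxg : x ∈ graph f := ⟨⟨0, by simp⟩, rfl⟩
  have h3 := h r hr0' hr2 x hxg
  have h4 : (1 : ℝ≥0∞) ≤ (packing r (ball x (r ^ θ) ∩ graph f) : ℝ≥0∞) :=
    one_le_packing (x := x) ⟨mem_ball_self (Real.rpow_pos_of_pos hr0' _), hxg⟩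
  have h5 := h4.trans h3
  rw [← Real.rpow_mul hr0'.le] at h5
  rw [ENNReal.one_le_ofReal] at h5
  linarith

lemma rough_spectrum {η K c : ℝ} {f : Icc (0 : ℝ) 1 → ℝ} (hη : 0 < η) (hη1 : η < 1)
    (hf : Rough η K c f) {θ : ℝ} (hθ : 0 < θ) (hθη : θ ≤ η) :
    assouadSpectrum θ (graph f) < 2 - (η - θ) / (1 - θ) := by
  -- choice of q
  have hq : ∃ q : ℕ, 2 ≤ q ∧ K * (1 / (q : ℝ)) ^ η ≤ c / 4 := by
    have ht : Tendsto (fun q : ℕ => K * (1 / (q : ℝ)) ^ η) atTop (𝓝 (K * 0 ^ η)) := by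
      apply Tendsto.const_mul
      exact Tendsto.rpow_const tendsto_one_div_atTop_nhds_zero_nat (Or.inr hη.le)
    rw [Real.zero_rpow hη.ne', mul_zero] at ht
    have hc := hf.hc
    obtain ⟨q, h1, h2⟩ := ((ht.eventually_le_const (show 0 < c / 4 by positivity)).and
      (eventually_ge_atTop 2)).exists
    exact ⟨q, h2, h1⟩
  obtain ⟨q, hq, hqK⟩ := hq
  have hκ1 := kap_lt_one hq
  have h1θ : 0 < 1 - θ := by linarith
  set β : ℝ := -(expo θ η q) / (1 - θ) with hβ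
  have hcst : 0 < cst K c η q := by
    have := hf.hK; have := hf.hc
    unfold cst; positivity
  have hmem : β ∈ exponents θ (graph f) := by
    refine ⟨cst K c η q, hcst, fun r hr hr1 x hx => ?_⟩
    have := rough_packing hη hη1 hf hq hqK hθ hθη hr hr1 hx
    rw [← Real.rpow_mul hr.le]
    have he : (θ - 1) * β = expo θ η q := by
      rw [hβ]; field_simp; ring
    rw [he]
    exact this
  have hbdd : BddBelow (exponents θ (graph f)) :=
    ⟨0, fun b hb => exponents_nonneg (by linarith) f hb⟩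
  refine lt_of_le_of_lt (csInf_le hbdd hmem) ?_
  rw [hβ, div_lt_iff₀ h1θ]
  have h2 : (2 - (η - θ) / (1 - θ)) * (1 - θ) = 2 - θ - η := by field_simp; ring
  rw [h2]
  unfold expo
  have h3 : θ < θ / η := by
    rw [lt_div_iff₀ hη]; nlinarith
  nlinarith [mul_pos (sub_pos.mpr h3) (sub_pos.mpr hκ1)]

/-! ### Completeness of `C^ω` -/

namespace COmega

variable {ω : ConcaveModulus}

lemma dist_def (f g : COmega ω) : dist f g = normOmega ω (f.fn - g.fn) := rfl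

lemma abs_le_dist (f g : COmega ω) (x : Icc (0 : ℝ) 1) : |f.fn x - g.fn x| ≤ dist f g := by
  rw [dist_def, normOmega]
  have h1 := le_sup (semi_sub_lt f.2 g.2) x
  have h2 : 0 ≤ (semi ω (f.fn - g.fn)).toReal := ENNReal.toReal_nonneg
  have h3 : |f.fn x - g.fn x| = |(f.1 - g.1) x| := rfl
  rw [h3]
  exact h1.trans (by
    show (⨆ x, |(f.fn - g.fn) x|) ≤ _
    linarith)

lemma omega_nonneg (ω : ConcaveModulus) (x y : Icc (0 : ℝ) 1) : 0 ≤ ω |(x : ℝ) - y| := by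
  by_cases hxy : x = y
  · subst hxy; simp [ω.zero']
  · have hne : (x : ℝ) ≠ y := fun h => hxy (Subtype.ext h)
    refine (ω.pos' _ ⟨abs_pos.mpr (sub_ne_zero.mpr hne), ?_⟩).le
    rw [abs_le]
    have := x.2.1; have := x.2.2; have := y.2.1; have := y.2.2
    constructor <;> linarith

lemma abs_sub_le_dist (f g : COmega ω) (x y : Icc (0 : ℝ) 1) :
    |(f.fn x - g.fn x) - (f.fn y - g.fn y)| ≤ dist f g * ω |(x : ℝ) - y| := by
  refine (abs_sub_le_semi (semi_sub_lt f.2 g.2) x y).trans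
    (mul_le_mul_of_nonneg_right ?_ (omega_nonneg ω x y))
  rw [dist_def, normOmega]
  have := sup_nonneg (semi_sub_lt f.2 g.2)
  have h : 0 ≤ (⨆ x, |(f.fn - g.fn) x|) := this
  have e : semi ω (f.1 - g.1) = semi ω (f.fn - g.fn) := rfl
  rw [e]
  linarith

instance : CompleteSpace (COmega ω) := by
  apply Metric.complete_of_cauchySeq_tendsto
  intro u hu
  have hx : ∀ x, CauchySeq (fun n => (u n).fn x) := by
    intro x
    rw [Metric.cauchySeq_iff] at hu ⊢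
    intro ε hε
    obtain ⟨N, hN⟩ := hu ε hε
    refine ⟨N, fun m hm n hn => ?_⟩
    rw [Real.dist_eq]
    exact lt_of_le_of_lt (abs_le_dist (u m) (u n) x) (hN m hm n hn)
  choose F hF using fun x => cauchySeq_tendsto_of_complete (hx x)
  -- key estimate
  have key : ∀ ε : ℝ, 0 < ε → ∃ N, ∀ m ≥ N, semi ω ((u m).fn - F) ≤ ENNReal.ofReal ε ∧
      ∀ x, |(u m).fn x - F x| ≤ ε := by
    intro ε hε
    rw [Metric.cauchySeq_iff] at hu
    obtain ⟨N, hN⟩ := hu ε hε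
    refine ⟨N, fun m hm => ⟨?_, fun x => ?_⟩⟩
    · rw [semi_le_iff ω _ hε.le]
      intro x y
      have ht : Tendsto (fun n => |((u m).fn x - (u n).fn x) - ((u m).fn y - (u n).fn y)|) atTop
          (𝓝 |((u m).fn x - F x) - ((u m).fn y - F y)|) :=
        ((tendsto_const_nhds.sub (hF x)).sub (tendsto_const_nhds.sub (hF y))).abs
      apply le_of_tendsto ht
      filter_upwards [eventually_ge_atTop N] with n hn
      refine (abs_sub_le_dist (u m) (u n) x y).trans ?_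
      exact mul_le_mul_of_nonneg_right (hN m hm n hn).le (omega_nonneg ω x y)
    · have ht : Tendsto (fun n => |(u m).fn x - (u n).fn x|) atTop (𝓝 |(u m).fn x - F x|) :=
        (tendsto_const_nhds.sub (hF x)).abs
      apply le_of_tendsto ht
      filter_upwards [eventually_ge_atTop N] with n hn
      exact (abs_le_dist (u m) (u n) x).trans (hN m hm n hn).le
  have hFmem : semi ω F < ⊤ := by
    obtain ⟨N, hN⟩ := key 1 one_pos
    have h2 : semi ω ((u N).fn - F) < ⊤ := lt_of_le_of_lt (hN N le_rfl).1 ENNReal.ofReal_lt_top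
    have h3 : F = (u N).fn - ((u N).fn - F) := by abel
    rw [h3]
    exact semi_sub_lt (u N).2 h2
  refine ⟨⟨F, hFmem⟩, ?_⟩
  rw [Metric.tendsto_atTop]
  intro ε hε
  obtain ⟨N, hN⟩ := key (ε / 3) (by positivity)
  refine ⟨N, fun m hm => ?_⟩
  obtain ⟨h1, h2⟩ := hN m hm
  rw [dist_def, normOmega]
  have e1 : (⨆ x, |((u m).fn - F) x|) ≤ ε / 3 := ciSup_le h2
  have e2 : (semi ω ((u m).fn - F)).toReal ≤ ε / 3 :=
    ENNReal.toReal_le_of_le_ofReal (by positivity) h1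
  show (⨆ x, |((u m).fn - F) x|) + (semi ω ((u m).fn - F)).toReal < ε
  linarith

end COmega

end Pool.Agent.Lib.MP_6b2627_an
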