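import Pool.Agent.Lib.MP_6b2627_an.Final

/-!
# The identity for the Assouad spectrum is not typical in `C^ω[0,1]`
-/

open Set Filter Topology Metric
open scoped ENNReal

namespace Pool.Agent.Lib.MP_6b2627_an

/-- the modulus `t^η` -/
noncomputable def powModulus (η : ℝ) (h0 : 0 < η) (h1 : η < 1) : ConcaveModulus where
  toFun := fun t => t ^ η
  monotone' := fun s hs t _ hst => Real.rpow_le_rpow hs.1 hst h0.le
  pos' := fun t ht => Real.rpow_pos_of_pos ht.1 _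
  zero' := Real.zero_rpow h0.ne'
  tendsto' := by
    have : Tendsto (fun t : ℝ => t ^ η) (𝓝[>] 0) (𝓝 (0 ^ η)) :=
      ((Real.continuousAt_rpow_const 0 _ (Or.inr h0.le)).tendsto).mono_left nhdsWithin_le_nhds
    rwa [Real.zero_rpow h0.ne'] at this
  concave' := (Real.concaveOn_rpow h0.le h1.le).subset (fun t ht => ht.1) (convex_Icc 0 1)

lemma pow_limit (η : ℝ) (h0 : 0 < η) (h1 : η < 1) :
    Tendsto (fun t => Real.log (powModulus η h0 h1 t) / Real.log t) (𝓝[>] 0) (𝓝 η) := by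
  apply tendsto_nhds_of_eventually_eq
  have h2 : ∀ᶠ r : ℝ in 𝓝[>] 0, r < 1 := by
    apply Filter.Eventually.filter_mono nhdsWithin_le_nhds
    exact eventually_lt_nhds (by norm_num)
  filter_upwards [self_mem_nhdsWithin, h2] with t ht ht1
  have ht' : 0 < t := ht
  show Real.log (t ^ η) / Real.log t = η
  rw [Real.log_rpow ht']
  have : Real.log t ≠ 0 := (Real.log_neg ht' ht1).ne
  field_simp

/-- an open ball of uniformly rough functions -/
lemma exists_ball (η : ℝ) (h0 : 0 < η) (h1 : η < 1) :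
    ∃ U : Set (COmega (powModulus η h0 h1)), IsOpen U ∧ U.Nonempty ∧ ∀ f ∈ U,
      ∃ K c : ℝ, Rough η K c f.fn := by
  obtain ⟨f, K, c, hK, hc, hup, hlow⟩ := exists_rough h0 h1
  set ω := powModulus η h0 h1 with hω
  have hsemi : semi ω (fun x : Icc (0 : ℝ) 1 => f x) < ⊤ := by
    refine lt_of_le_of_lt ((semi_le_iff ω _ hK.le).mpr ?_) ENNReal.ofReal_lt_top
    intro x y
    apply hup
    rw [abs_le]
    have := x.2.1; have := x.2.2; have := y.2.1; have := y.2.2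
    constructor <;> linarith
  set f₀ : COmega ω := ⟨_, hsemi⟩ with hf₀
  refine ⟨ball f₀ (c / 2), isOpen_ball, ⟨f₀, mem_ball_self (by positivity)⟩, ?_⟩
  intro g hg
  rw [mem_ball] at hg
  have hdiff : ∀ x y : Icc (0 : ℝ) 1,
      |(g.fn x - f x) - (g.fn y - f y)| ≤ c / 2 * |(x : ℝ) - y| ^ η := by
    intro x y
    have h2 := COmega.abs_sub_le_dist g f₀ x y
    refine h2.trans ?_
    exact mul_le_mul_of_nonneg_right hg.le (COmega.omega_nonneg ω x y)
  refine ⟨K + c / 2, min (c / 2) 4, by positivity, by positivity, min_le_right _ _, ?_, ?_⟩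
  · intro s hs t ht
    rw [extend_of_mem _ hs, extend_of_mem _ ht]
    have e1 := hdiff ⟨s, hs⟩ ⟨t, ht⟩
    have e2 := hup s t (by
      rw [abs_le]; have := hs.1; have := hs.2; have := ht.1; have := ht.2
      constructor <;> linarith)
    have e3 : g.fn ⟨s, hs⟩ - g.fn ⟨t, ht⟩ =
        ((g.fn ⟨s, hs⟩ - f s) - (g.fn ⟨t, ht⟩ - f t)) + (f s - f t) := by ring
    rw [e3]
    refine (abs_add_le _ _).trans ?_
    rw [add_mul]
    linarith
  · intro u ρ hu hρ huρ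
    obtain ⟨s, hs, t, ht, hst⟩ := hlow u ρ hρ (by linarith)
    have hs01 : s ∈ Icc (0 : ℝ) 1 := ⟨hu.trans hs.1, hs.2.trans huρ⟩
    have ht01 : t ∈ Icc (0 : ℝ) 1 := ⟨hu.trans ht.1, ht.2.trans huρ⟩
    refine ⟨s, hs, t, ht, ?_⟩
    rw [extend_of_mem _ hs01, extend_of_mem _ ht01]
    have e1 := hdiff ⟨s, hs01⟩ ⟨t, ht01⟩
    have e4 : |s - t| ^ η ≤ ρ ^ η := by
      apply Real.rpow_le_rpow (abs_nonneg _) _ h0.le
      rw [abs_le]
      have := hs.1; have := hs.2; have := ht.1; have := ht.2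
      constructor <;> linarith
    have e5 : c / 2 * |s - t| ^ η ≤ c / 2 * ρ ^ η := by gcongr
    have e3 : f s - f t = (g.fn ⟨s, hs01⟩ - g.fn ⟨t, ht01⟩) -
        ((g.fn ⟨s, hs01⟩ - f s) - (g.fn ⟨t, ht01⟩ - f t)) := by ring
    have e6 : |f s - f t| ≤ |g.fn ⟨s, hs01⟩ - g.fn ⟨t, ht01⟩| +
        |(g.fn ⟨s, hs01⟩ - f s) - (g.fn ⟨t, ht01⟩ - f t)| := by
      rw [e3]; exact abs_sub _ _
    have e7 : min (c / 2) 4 * ρ ^ η ≤ c / 2 * ρ ^ η := by
      have : 0 ≤ ρ ^ η := by positivity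
      gcongr
      exact min_le_left _ _
    simp only at e1
    linarith

lemma not_residual_of_open {X : Type*} [TopologicalSpace X] [BaireSpace X] {U S : Set X}
    (hU : IsOpen U) (hne : U.Nonempty) (h : ∀ x ∈ U, x ∉ S) : S ∉ residual X := by
  intro hS
  have hd : Dense S := dense_of_mem_residual hS
  obtain ⟨x, hxU, hxS⟩ := hd.inter_open_nonempty U hU hne
  exact h x hxU hxS

theorem main : ∀ η : ℝ, 0 < η → η < 1 → ∃ ω : ConcaveModulus,
    (∀ t, ω t = t ^ η) ∧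
    Tendsto (fun t => Real.log (ω t) / Real.log t) (𝓝[>] 0) (𝓝 η) ∧
    (∃ U : Set (COmega ω), IsOpen U ∧ U.Nonempty ∧ ∀ f ∈ U, ∀ θ ∈ Ioc 0 η,
      assouadSpectrum θ (graph f.fn) < 2 - (η - θ) / (1 - θ)) ∧
    ∀ θ ∈ Ioc 0 η,
      {f : COmega ω | assouadSpectrum θ (graph f.fn) = 2 - (η - θ) / (1 - θ)} ∉
        residual (COmega ω) := by
  intro η h0 h1
  obtain ⟨U, hU, hne, hf⟩ := exists_ball η h0 h1
  have hlt : ∀ f ∈ U, ∀ θ ∈ Ioc 0 η,
      assouadSpectrum θ (graph f.fn) < 2 - (η - θ) / (1 - θ) := by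
    intro f hfU θ hθ
    obtain ⟨K, c, hr⟩ := hf f hfU
    exact rough_spectrum h0 h1 hr hθ.1 hθ.2
  refine ⟨powModulus η h0 h1, fun _ => rfl, pow_limit η h0 h1, ⟨U, hU, hne, hlt⟩, ?_⟩
  intro θ hθ
  exact not_residual_of_open hU hne (fun f hfU hfS => (hlt f hfU θ hθ).ne hfS)

end Pool.Agent.Lib.MP_6b2627_an
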