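import Pool.Agent.Lib.MP_6b2627_an.Defs

/-!
# A uniformly rough Hoelder function
-/

open Set Filter Topology Metric

namespace Pool.Agent.Lib.MP_6b2627_an

/-- distance to the nearest integer -/
noncomputable def tri (x : ℝ) : ℝ := ‖(x : UnitAddCircle)‖

lemma tri_eq (x : ℝ) : tri x = |x - round x| := UnitAddCircle.norm_eq

lemma tri_nonneg (x : ℝ) : 0 ≤ tri x := norm_nonneg _

lemma tri_le_half (x : ℝ) : tri x ≤ 1 / 2 := by
  rw [tri_eq]; exact abs_sub_round x

lemma tri_lip (x y : ℝ) : |tri x - tri y| ≤ |x - y| := by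
  have h1 : |tri x - tri y| ≤ ‖(x : UnitAddCircle) - (y : UnitAddCircle)‖ :=
    abs_norm_sub_norm_le _ _
  refine h1.trans ?_
  rw [← AddCircle.coe_sub, UnitAddCircle.norm_eq]
  simpa using round_le (x - y) 0

lemma tri_diff_le_half (x y : ℝ) : |tri x - tri y| ≤ 1 / 2 := by
  have := tri_nonneg x; have := tri_nonneg y; have := tri_le_half x; have := tri_le_half y
  rw [abs_le]; constructor <;> linarith

lemma tri_int (n : ℤ) : tri n = 0 := by
  rw [tri_eq]; simp

lemma tri_int_half (n : ℤ) : tri (n + 1 / 2) = 1 / 2 := by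
  rw [tri_eq]
  have : round ((n : ℝ) + 1 / 2) = n + 1 := by
    rw [add_comm, round_add_intCast]
    have : round (1 / 2 : ℝ) = 1 := by
      rw [round_eq]; norm_num
    rw [this]; ring
  rw [this]
  push_cast
  rw [show (n : ℝ) + 1 / 2 - (n + 1) = -(1 / 2) by ring, abs_neg, abs_of_pos (by norm_num)]

section
variable {a : ℝ} {b : ℕ} (ha0 : 0 < a) (ha1 : a < 1)

/-- the lacunary series -/
noncomputable def series (a : ℝ) (b : ℕ) (t : ℝ) : ℝ := ∑' k : ℕ, a ^ k * tri ((b : ℝ) ^ k * t)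

include ha0 ha1

lemma summable_series (b : ℕ) (t : ℝ) : Summable (fun k : ℕ => a ^ k * tri ((b : ℝ) ^ k * t)) := by
  apply Summable.of_nonneg_of_le (fun k => mul_nonneg (pow_nonneg ha0.le _) (tri_nonneg _))
    (fun k => ?_) ((summable_geometric_of_lt_one ha0.le ha1).mul_right (1 / 2))
  gcongr
  exact tri_le_half _

lemma series_sub (b : ℕ) (s t : ℝ) : series a b s - series a b t =
    ∑' k : ℕ, a ^ k * (tri ((b : ℝ) ^ k * s) - tri ((b : ℝ) ^ k * t)) := by
  unfold series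
  rw [← (summable_series ha0 ha1 b s).tsum_sub (summable_series ha0 ha1 b t)]
  congr 1; ext k; ring

lemma summable_diff (b : ℕ) (s t : ℝ) :
    Summable (fun k : ℕ => a ^ k * (tri ((b : ℝ) ^ k * s) - tri ((b : ℝ) ^ k * t))) := by
  have := (summable_series ha0 ha1 b s).sub (summable_series ha0 ha1 b t)
  refine this.congr (fun k => ?_)
  ring

/-- Hoelder estimate at scale `b^(-n)` -/
lemma series_upper (hab : 4 ≤ a * b) {s t : ℝ} (n : ℕ)
    (h : |s - t| * (b : ℝ) ^ n ≤ 1) :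
    |series a b s - series a b t| ≤ a ^ n * (a * b / (a * b - 1) + 1 / (1 - a)) := by
  have hb0 : (0 : ℝ) < b := by
    rcases Nat.eq_zero_or_pos b with h | h
    · subst h; simp at hab; linarith
    · exact_mod_cast h
  rw [series_sub ha0 ha1]
  have hs := summable_diff ha0 ha1 b s t
  rw [← hs.sum_add_tsum_nat_add (n + 1)]
  refine (abs_add_le _ _).trans ?_
  rw [mul_add]
  apply add_le_add
  · calc |∑ k ∈ Finset.range (n + 1), a ^ k * (tri ((b : ℝ) ^ k * s) - tri ((b : ℝ) ^ k * t))|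
        ≤ ∑ k ∈ Finset.range (n + 1), |a ^ k * (tri ((b : ℝ) ^ k * s) - tri ((b : ℝ) ^ k * t))| :=
          Finset.abs_sum_le_sum_abs _ _
      _ ≤ ∑ k ∈ Finset.range (n + 1), (a * b) ^ k * |s - t| := by
          apply Finset.sum_le_sum
          intro k _
          rw [abs_mul, abs_of_pos (pow_pos ha0 k), mul_pow, mul_assoc]
          gcongr
          refine (tri_lip _ _).trans ?_
          rw [← mul_sub, abs_mul, abs_of_pos (pow_pos hb0 k)]
      _ = ((a * b) ^ (n + 1) - 1) / (a * b - 1) * |s - t| := by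
          rw [← Finset.sum_mul, geom_sum_eq (by linarith)]
      _ ≤ (a * b) ^ (n + 1) / (a * b - 1) * |s - t| := by
          have : 0 < a * b - 1 := by linarith
          gcongr
          linarith
      _ = a ^ n * (a * b / (a * b - 1)) * (|s - t| * (b : ℝ) ^ n) := by
          have : a * b - 1 ≠ 0 := by linarith
          rw [pow_succ, mul_pow]
          field_simp
      _ ≤ a ^ n * (a * b / (a * b - 1)) * 1 := by
          have : 0 < a * b - 1 := by linarith
          gcongr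
      _ = _ := by ring
  · have hs2 : Summable (fun k : ℕ => a ^ (k + (n + 1))) :=
      (summable_nat_add_iff (n + 1)).mpr (summable_geometric_of_lt_one ha0.le ha1)
    have hb : ∀ k : ℕ, ‖a ^ (k + (n + 1)) * (tri ((b : ℝ) ^ (k + (n + 1)) * s) -
        tri ((b : ℝ) ^ (k + (n + 1)) * t))‖ ≤ a ^ (k + (n + 1)) := by
      intro k
      rw [Real.norm_eq_abs, abs_mul, abs_of_pos (pow_pos ha0 _)]
      calc _ ≤ a ^ (k + (n + 1)) * 1 := by
            gcongr
            exact (tri_diff_le_half _ _).trans (by norm_num)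
        _ = _ := mul_one _
    have := tsum_of_norm_bounded hs2.hasSum hb
    rw [Real.norm_eq_abs] at this
    refine this.trans ?_
    have h2 : ∑' k : ℕ, a ^ (k + (n + 1)) = a ^ (n + 1) * (1 - a)⁻¹ := by
      rw [← tsum_geometric_of_lt_one ha0.le ha1, ← tsum_mul_left]
      congr 1; ext k; rw [pow_add]; ring
    rw [h2, one_div]
    have h3 : 0 < (1 - a)⁻¹ := by
      apply inv_pos.mpr; linarith
    gcongr ?_ * _
    apply pow_le_pow_of_le_one ha0.le ha1.le
    omega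

/-- lower oscillation estimate at scale `b^(-n)` -/
lemma series_lower (hb : Even b) (hab : 4 ≤ a * b) (n : ℕ) (m : ℤ) :
    a ^ n / 3 ≤ |series a b ((m : ℝ) / (b : ℝ) ^ n) - series a b ((m + 1 / 2) / (b : ℝ) ^ n)| := by
  have hb0 : (0 : ℝ) < b := by
    rcases Nat.eq_zero_or_pos b with h | h
    · subst h; simp at hab; linarith
    · exact_mod_cast h
  obtain ⟨B, hB⟩ := hb
  have hB' : (b : ℝ) = 2 * B := by rw [hB]; push_cast; ring
  set s : ℝ := (m : ℝ) / (b : ℝ) ^ n with hs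
  set t : ℝ := (m + 1 / 2) / (b : ℝ) ^ n with ht
  rw [series_sub ha0 ha1]
  have hzero : ∀ k ∉ Finset.range (n + 1),
      a ^ k * (tri ((b : ℝ) ^ k * s) - tri ((b : ℝ) ^ k * t)) = 0 := by
    intro k hk
    rw [Finset.mem_range, not_lt] at hk
    obtain ⟨j, rfl⟩ := Nat.exists_eq_add_of_le hk
    have e1 : (b : ℝ) ^ (n + 1 + j) * s = ((m * (b : ℤ) ^ (j + 1) : ℤ) : ℝ) := by
      rw [hs]; push_cast
      rw [show n + 1 + j = n + (j + 1) by ring, pow_add]
      field_simp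
    have e2 : (b : ℝ) ^ (n + 1 + j) * t =
        (((2 * m + 1) * (B : ℤ) * (b : ℤ) ^ j : ℤ) : ℝ) := by
      rw [ht]; push_cast
      rw [show n + 1 + j = n + (j + 1) by ring, pow_add, pow_succ _ j]
      have : (b : ℝ) = 2 * B := hB'
      field_simp
      rw [this]; ring
    rw [e1, e2, tri_int, tri_int]
    ring
  rw [tsum_eq_sum hzero, Finset.sum_range_succ]
  have hterm : a ^ n * (tri ((b : ℝ) ^ n * s) - tri ((b : ℝ) ^ n * t)) = -(a ^ n / 2) := by
    have e1 : (b : ℝ) ^ n * s = (m : ℝ) := by rw [hs]; field_simp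
    have e2 : (b : ℝ) ^ n * t = (m : ℝ) + 1 / 2 := by rw [ht]; field_simp
    rw [e1, e2, tri_int, tri_int_half]; ring
  rw [hterm]
  have hdist : |s - t| * (b : ℝ) ^ n = 1 / 2 := by
    have : s - t = -(1 / 2) / (b : ℝ) ^ n := by rw [hs, ht]; ring
    rw [this, abs_div, abs_neg, abs_of_pos (show (0 : ℝ) < 1 / 2 by norm_num),
      abs_of_pos (pow_pos hb0 n)]
    field_simp
  have hlow : |∑ k ∈ Finset.range n, a ^ k * (tri ((b : ℝ) ^ k * s) - tri ((b : ℝ) ^ k * t))|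
      ≤ a ^ n / 6 := by
    calc |∑ k ∈ Finset.range n, a ^ k * (tri ((b : ℝ) ^ k * s) - tri ((b : ℝ) ^ k * t))|
        ≤ ∑ k ∈ Finset.range n, |a ^ k * (tri ((b : ℝ) ^ k * s) - tri ((b : ℝ) ^ k * t))| :=
          Finset.abs_sum_le_sum_abs _ _
      _ ≤ ∑ k ∈ Finset.range n, (a * b) ^ k * |s - t| := by
          apply Finset.sum_le_sum
          intro k _
          rw [abs_mul, abs_of_pos (pow_pos ha0 k), mul_pow, mul_assoc]
          gcongr
          refine (tri_lip _ _).trans ?_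
          rw [← mul_sub, abs_mul, abs_of_pos (pow_pos hb0 k)]
      _ = ((a * b) ^ n - 1) / (a * b - 1) * |s - t| := by
          rw [← Finset.sum_mul, geom_sum_eq (by linarith)]
      _ ≤ (a * b) ^ n / 3 * |s - t| := by
          have h3 : (0 : ℝ) ≤ (a * b) ^ n := by positivity
          gcongr
          · linarith
          · linarith
      _ = a ^ n / 3 * (|s - t| * (b : ℝ) ^ n) := by rw [mul_pow]; ring
      _ = a ^ n / 6 := by rw [hdist]; ring
  have hpos : 0 < a ^ n := pow_pos ha0 n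
  rw [abs_le] at hlow
  have : |∑ k ∈ Finset.range n, a ^ k * (tri ((b : ℝ) ^ k * s) - tri ((b : ℝ) ^ k * t)) +
      -(a ^ n / 2)| = -(∑ k ∈ Finset.range n, a ^ k * (tri ((b : ℝ) ^ k * s) -
        tri ((b : ℝ) ^ k * t)) + -(a ^ n / 2)) := by
    apply abs_of_nonpos
    linarith [hlow.2]
  rw [this]
  linarith [hlow.2]

end

/-- existence of the parameters -/
lemma exists_params {η : ℝ} (h0 : 0 < η) (h1 : η < 1) :
    ∃ b : ℕ, Even b ∧ 2 ≤ b ∧ 0 < (b : ℝ) ^ (-η) ∧ (b : ℝ) ^ (-η) < 1 ∧ 4 ≤ (b : ℝ) ^ (-η) * b := by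
  have ht : Tendsto (fun n : ℕ => ((2 * n : ℕ) : ℝ) ^ (1 - η)) atTop atTop := by
    have h2 : Tendsto (fun n : ℕ => ((2 * n : ℕ) : ℝ)) atTop atTop := by
      apply tendsto_natCast_atTop_atTop.comp
      exact Filter.tendsto_id.const_mul_atTop' (by norm_num)
    exact (tendsto_rpow_atTop (by linarith : 0 < 1 - η)).comp h2
  obtain ⟨n, hn1, hn2⟩ := ((ht.eventually_ge_atTop 4).and (eventually_ge_atTop 1)).exists
  refine ⟨2 * n, even_two_mul n, by omega, ?_, ?_, ?_⟩
  · have : (0 : ℝ) < ((2 * n : ℕ) : ℝ) := by exact_mod_cast (by omega : 0 < 2 * n)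
    positivity
  · apply Real.rpow_lt_one_of_one_lt_of_neg
    · exact_mod_cast (by omega : 1 < 2 * n)
    · linarith
  · have h3 : (0 : ℝ) < ((2 * n : ℕ) : ℝ) := by exact_mod_cast (by omega : 0 < 2 * n)
    calc (4 : ℝ) ≤ ((2 * n : ℕ) : ℝ) ^ (1 - η) := hn1
      _ = ((2 * n : ℕ) : ℝ) ^ (-η) * ((2 * n : ℕ) : ℝ) := by
          rw [show 1 - η = -η + 1 by ring, Real.rpow_add h3, Real.rpow_one]

/-- the rough function with its two estimates -/
lemma exists_rough {η : ℝ} (h0 : 0 < η) (h1 : η < 1) :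
    ∃ (f : ℝ → ℝ) (K c : ℝ), 0 < K ∧ 0 < c ∧
      (∀ s t : ℝ, |s - t| ≤ 1 → |f s - f t| ≤ K * |s - t| ^ η) ∧
      (∀ u ρ : ℝ, 0 < ρ → ρ ≤ 1 → ∃ s ∈ Icc u (u + ρ), ∃ t ∈ Icc u (u + ρ),
        c * ρ ^ η ≤ |f s - f t|) := by
  obtain ⟨b, hbe, hb2, ha0, ha1, hab⟩ := exists_params h0 h1
  set a : ℝ := (b : ℝ) ^ (-η) with ha
  have hb0 : (0 : ℝ) < b := by exact_mod_cast (by omega : 0 < b)
  have hb1 : (1 : ℝ) < b := by exact_mod_cast (by omega : 1 < b)
  have hapow : ∀ n : ℕ, a ^ n = ((1 / (b : ℝ)) ^ n) ^ η := by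
    intro n
    rw [ha, ← Real.rpow_natCast, ← Real.rpow_mul hb0.le, ← Real.rpow_natCast, one_div,
      ← Real.rpow_neg_one, ← Real.rpow_mul hb0.le, ← Real.rpow_mul hb0.le]
    congr 1; ring
  have hbinv : 0 < 1 / (b : ℝ) := by positivity
  have hbinv1 : 1 / (b : ℝ) < 1 := by rw [div_lt_one hb0]; exact hb1
  set K₀ : ℝ := a * b / (a * b - 1) + 1 / (1 - a) with hK₀
  have hK₀pos : 0 < K₀ := by
    have e1 : 0 < a * b - 1 := by linarith
    have e2 : 0 < 1 - a := by linarith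
    have e3 : 0 < a * b := by linarith
    positivity
  refine ⟨series a b, K₀ * (b : ℝ) ^ η, (1 / 3) * (1 / (2 * b)) ^ η, by positivity, by positivity,
    ?_, ?_⟩
  · intro s t hst
    rcases eq_or_ne s t with rfl | hne
    · simp [Real.zero_rpow h0.ne']
    have hpos : 0 < |s - t| := abs_pos.mpr (sub_ne_zero.mpr hne)
    obtain ⟨n, hn1, hn2⟩ := exists_nat_pow_near_of_lt_one hpos hst hbinv hbinv1
    have e1 : |s - t| * (b : ℝ) ^ n ≤ 1 := by
      rw [one_div, inv_pow] at hn2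
      calc |s - t| * (b : ℝ) ^ n ≤ ((b : ℝ) ^ n)⁻¹ * (b : ℝ) ^ n := by gcongr
        _ = 1 := inv_mul_cancel₀ (by positivity)
    refine (series_upper ha0 ha1 hab n e1).trans ?_
    have e2 : a ^ n ≤ (b : ℝ) ^ η * |s - t| ^ η := by
      rw [hapow, ← Real.mul_rpow hb0.le hpos.le]
      apply Real.rpow_le_rpow (by positivity) _ h0.le
      rw [pow_succ] at hn1
      have : (1 / (b : ℝ)) ^ n = (1 / (b : ℝ)) ^ n * (1 / b) * b := by field_simp
      rw [this]
      nlinarith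
    calc a ^ n * K₀ ≤ ((b : ℝ) ^ η * |s - t| ^ η) * K₀ := by gcongr
      _ = _ := by ring
  · intro u ρ hρ0 hρ1
    obtain ⟨n, hn1, hn2⟩ := exists_nat_pow_near_of_lt_one (show 0 < ρ / 2 by positivity)
      (by linarith) hbinv hbinv1
    set N := n + 1 with hN
    have hbN : (0 : ℝ) < (b : ℝ) ^ N := by positivity
    have e0 : 1 / (b : ℝ) ^ N < ρ / 2 := by rwa [one_div, ← inv_pow, ← one_div]
    set m : ℤ := ⌈u * (b : ℝ) ^ N⌉ with hm
    have hm1 : u * (b : ℝ) ^ N ≤ m := Int.le_ceil _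
    have hm2 : (m : ℝ) < u * (b : ℝ) ^ N + 1 := Int.ceil_lt_add_one _
    have e0' : 2 < ρ * (b : ℝ) ^ N := by
      rw [div_lt_iff₀ hbN] at e0
      linarith
    refine ⟨(m : ℝ) / (b : ℝ) ^ N, ⟨?_, ?_⟩, (m + 1 / 2) / (b : ℝ) ^ N, ⟨?_, ?_⟩, ?_⟩
    · rw [le_div_iff₀ hbN]; exact hm1
    · rw [div_le_iff₀ hbN, add_mul]; linarith
    · rw [le_div_iff₀ hbN]; linarith
    · rw [div_le_iff₀ hbN, add_mul]; linarith
    · refine le_trans ?_ (series_lower ha0 ha1 hbe hab N m)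
      have e3 : 1 / (2 * (b : ℝ)) * ρ ≤ (1 / (b : ℝ)) ^ N := by
        rw [hN, pow_succ]
        calc 1 / (2 * (b : ℝ)) * ρ = (ρ / 2) * (1 / b) := by ring
          _ ≤ (1 / (b : ℝ)) ^ n * (1 / b) := by gcongr
      calc 1 / 3 * (1 / (2 * (b : ℝ))) ^ η * ρ ^ η = (1 / (2 * (b : ℝ)) * ρ) ^ η / 3 := by
            rw [Real.mul_rpow (by positivity) hρ0.le]; ring
        _ ≤ ((1 / (b : ℝ)) ^ N) ^ η / 3 := by
            gcongr
        _ = a ^ N / 3 := by rw [hapow]

end Pool.Agent.Lib.MP_6b2627_an
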